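import Mathlib
import Pool.Agent.Helper892.Par
import Pool.Agent.Helper892.Dim5

set_option autoImplicit false

/-! Typical centrally symmetric convex bodies have no inscribed parallelotope of large dimension. -/

open Metric Set

namespace Pool.Agent.Y368.PT

open scoped RealInnerProductSpace
open Pool.Agent.Helper892.Par

section generic

variable {J : Type*} [Fintype J] {I : Type*} [Fintype I]

/-- Given finitely many proper subspaces, there is a small generic vector. -/
lemma exists_generic' {Λ : Type*} [Finite Λ] (σ : Λ → I → J)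
    (hσ : ∀ l, Function.Injective (σ l)) (W : Λ → Submodule ℝ (I → ℝ)) (hW : ∀ l, W l ≠ ⊤)
    (b : J → ℝ) {τ : ℝ} (hτ : 0 < τ) :
    ∃ t : J → ℝ, (∀ j, |t j| ≤ τ) ∧ ∃ η > 0, ∀ l : Λ,
      ∀ y ∈ W l, ∃ s, η < |y s - (b (σ l s) + t (σ l s))| := by
  classical
  have hd : Dense (⋂ l, {t : J → ℝ | (fun s => b (σ l s) + t (σ l s)) ∉ W l}) :=
    dense_iInter_of_isOpen (fun l => (dense_avoid (hσ l) (W l) (hW l) b).1)
      (fun l => (dense_avoid (hσ l) (W l) (hW l) b).2)
  obtain ⟨t, htS, htb⟩ := Metric.dense_iff.mp hd (0 : J → ℝ) τ hτ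
  refine ⟨t, ?_, ?_⟩
  · intro j
    have h1 : ‖t‖ < τ := by simpa using htS
    exact (norm_le_pi_norm t j).trans h1.le
  · have key : ∀ l : Λ, ∃ η > 0, ∀ y ∈ W l, ∃ s,
        η < |y s - (b (σ l s) + t (σ l s))| := by
      intro l
      have h1 : (fun s => b (σ l s) + t (σ l s)) ∉ W l := mem_iInter.mp htb l
      have hclosed : IsClosed (W l : Set (I → ℝ)) := (W l).closed_of_finiteDimensional
      have h2 : (fun s => b (σ l s) + t (σ l s)) ∈ ((W l : Set (I → ℝ))ᶜ) := h1
      obtain ⟨ε, hε, hball⟩ := Metric.isOpen_iff.mp hclosed.isOpen_compl _ h2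
      refine ⟨ε / 2, by positivity, fun y hy => ?_⟩
      by_contra hcon
      push Not at hcon
      have : y ∈ ball (fun s => b (σ l s) + t (σ l s)) ε := by
        rw [mem_ball]
        refine lt_of_le_of_lt ?_ (half_lt_self hε)
        rw [dist_pi_le_iff (by positivity)]
        intro s
        rw [Real.dist_eq]
        exact hcon s
      exact hball this hy
    choose η hη hη' using key
    rcases isEmpty_or_nonempty Λ with hE | hE
    · exact ⟨1, one_pos, fun l => (hE.false l).elim⟩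
    · obtain ⟨l₀, hl₀⟩ := Finite.exists_min η
      refine ⟨η l₀, hη l₀, fun l y hy => ?_⟩
      obtain ⟨s, hs⟩ := hη' l y hy
      exact ⟨s, lt_of_le_of_lt (hl₀ l) hs⟩

end generic

/-- A map which is injective together with a sign is injective on a half. -/
lemma exists_section {A N : Type*} [Fintype A] (σ : A → N) (e : A → Bool)
    (h : ∀ s s', σ s = σ s' → e s = e s' → s = s') {m : ℕ} (hm : 2 * m ≤ Fintype.card A) :
    ∃ τ : Fin m → A, Function.Injective (σ ∘ τ) := by
  classical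
  have h1 : (Finset.univ : Finset A).card ≤ 2 * (Finset.univ.image σ).card := by
    apply Finset.card_le_mul_card_image
    intro a _
    have : ({x ∈ (Finset.univ : Finset A) | σ x = a}).card ≤ (Finset.univ : Finset Bool).card := by
      apply Finset.card_le_card_of_injOn e (fun _ _ => Finset.mem_coe.mpr (Finset.mem_univ _))
      intro x hx y hy hxy
      simp only [Finset.coe_filter, Finset.mem_univ, true_and, mem_setOf_eq] at hx hy
      exact h x y (hx.trans hy.symm) hxy
    simpa using this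
  have h2 : m ≤ (Finset.univ.image σ).card := by
    rw [Finset.card_univ] at h1
    omega
  have h3 : Fintype.card (Fin m) ≤ Fintype.card (Finset.univ.image σ) := by simpa using h2
  obtain ⟨f⟩ := Function.Embedding.nonempty_of_card_le h3
  have h4 : ∀ i : Fin m, ∃ s : A, σ s = (f i : N) := by
    intro i
    obtain ⟨s, _, hs⟩ := Finset.mem_image.mp (f i).2
    exact ⟨s, hs⟩
  choose τ hτ using h4
  refine ⟨τ, fun i j hij => ?_⟩
  apply f.injective
  apply Subtype.ext
  rw [← hτ i, ← hτ j]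
  exact hij

variable {E : Type*} [NormedAddCommGroup E] [InnerProductSpace ℝ E] [FiniteDimensional ℝ E]

/-- signs -/
noncomputable def sg (e : Bool) : ℝ := if e then 1 else -1

lemma norm_sg (e : Bool) (y : E) : ‖sg e • y‖ = ‖y‖ := by cases e <;> simp [sg]

lemma sg_sq (e : Bool) (y : E) : sg e • (sg e • y) = y := by cases e <;> simp [sg]

lemma fn_neg {K : ConvexBody E} (hsym : ∀ x ∈ K, -x ∈ K) {p : E → E}
    (hp : ∀ x, p x ∈ K ∧ (∀ y ∈ K, ‖x - p x‖ ≤ ‖x - y‖) ∧ ∀ y ∈ K, ⟪x - p x, y - p x⟫ ≤ 0)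
    (κ : ℝ) (x : E) : fn p κ (-x) = fn p κ x := by
  have h1 := (hp (-x)).2.1 (-p x) (hsym _ (hp x).1)
  have h2 := (hp x).2.1 (-p (-x)) (hsym _ (hp (-x)).1)
  have e1 : ‖-x - -p x‖ = ‖x - p x‖ := by rw [← norm_neg]; congr 1; abel
  have e2 : ‖x - -p (-x)‖ = ‖-x - p (-x)‖ := by rw [← norm_neg]; congr 1; abel
  rw [e1] at h1
  rw [e2] at h2
  unfold fn
  rw [le_antisymm h1 h2, norm_neg]

lemma fn_sg {K : ConvexBody E} (hsym : ∀ x ∈ K, -x ∈ K) {p : E → E}
    (hp : ∀ x, p x ∈ K ∧ (∀ y ∈ K, ‖x - p x‖ ≤ ‖x - y‖) ∧ ∀ y ∈ K, ⟪x - p x, y - p x⟫ ≤ 0)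
    (κ : ℝ) (e : Bool) (x : E) : fn p κ (sg e • x) = fn p κ x := by
  cases e
  · have : sg false • x = -x := by simp [sg]
    rw [this, fn_neg hsym hp]
  · have : sg true • x = x := by simp [sg]
    rw [this]

/-- the linear map sending a parallelotope to the values of functionals at some vertices -/
noncomputable def sysMapS {ι : Type*} [Fintype ι] {I : Type*} (τ : I → Finset ι) (a : I → E) :
    (E × (ι → E)) →ₗ[ℝ] (I → ℝ) where
  toFun q := fun s => 2 * ⟪a s, q.1 + ∑ i ∈ τ s, q.2 i⟫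
  map_add' q q' := by
    funext s
    simp only [Prod.fst_add, Prod.snd_add, Pi.add_apply, Finset.sum_add_distrib, inner_add_right]
    ring
  map_smul' c q := by
    funext s
    simp only [Prod.smul_fst, Prod.smul_snd, Pi.smul_apply, RingHom.id_apply, smul_eq_mul]
    rw [← Finset.smul_sum, ← smul_add, inner_smul_right]
    ring

lemma range_sysMapS_ne_top {ι : Type*} [Fintype ι] {I : Type*} [Fintype I]
    (hdim : Module.finrank ℝ E * (Fintype.card ι + 1) < Fintype.card I)
    (τ : I → Finset ι) (a : I → E) : LinearMap.range (sysMapS τ a) ≠ ⊤ := by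
  intro h
  have h1 := LinearMap.finrank_range_le (sysMapS τ a)
  rw [h, finrank_top, Module.finrank_fintype_fun_eq_card,
    Module.finrank_prod, Module.finrank_pi_fintype] at h1
  simp only [Finset.sum_const, Finset.card_univ, smul_eq_mul] at h1
  nlinarith

theorem approxS {ι : Type*} [Fintype ι] {m : ℕ}
    (hdim : Module.finrank ℝ E * (Fintype.card ι + 1) < m) (hm : 2 * m ≤ 2 ^ Fintype.card ι)
    (K : ConvexBody E) (hsym : ∀ x ∈ K, -x ∈ K) {ε g : ℝ} (hε : 0 < ε) (hg : 0 < g) :
    ∃ K' : ConvexBody E, (∀ x ∈ K', -x ∈ K') ∧ dist K K' < ε ∧ ∃ δ > 0,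
      ∀ L : ConvexBody E, dist K' L < δ →
      ¬ ∃ (x : E) (v : ι → E),
        (∀ s t : Finset ι, s ≠ t → g ≤ ‖(x + ∑ i ∈ s, v i) - (x + ∑ i ∈ t, v i)‖) ∧
        ∀ s : Finset ι, x + ∑ i ∈ s, v i ∈ frontier (L : Set E) := by
  classical
  obtain ⟨p, hp⟩ := exists_proj K
  obtain ⟨R, hR0, hR⟩ : ∃ R : ℝ, 0 ≤ R ∧ ∀ x ∈ K, ‖x‖ ≤ R := by
    obtain ⟨R, hR⟩ := K.isBounded.exists_norm_le
    obtain ⟨z, hz⟩ := K.nonempty
    exact ⟨R, (norm_nonneg z).trans (hR z hz), hR⟩
  set r : ℝ := ε / 3 with hr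
  have hr0 : 0 < r := by positivity
  set κ : ℝ := r ^ 2 / (4 * (R ^ 2 + 1)) with hκ
  have hκ0 : 0 < κ := by positivity
  have hκR : κ * R ^ 2 ≤ r ^ 2 / 4 := by
    rw [hκ, div_mul_eq_mul_div, div_le_div_iff₀ (by positivity) (by norm_num)]
    nlinarith [sq_nonneg r, sq_nonneg R, mul_nonneg (sq_nonneg r) (sq_nonneg R)]
  set R' : ℝ := R + 2 * r + 1 with hR'
  set η : ℝ := min (r ^ 2 / 4) (κ * g ^ 2 / 40) with hη
  have hη0 : 0 < η := by
    apply lt_min <;> positivity
  have hη1 : η ≤ r ^ 2 / 4 := min_le_left _ _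
  have hη2 : η ≤ κ * g ^ 2 / 40 := min_le_right _ _
  set θ : ℝ := Real.sqrt (η / (1 + κ)) with hθ
  have hθ0 : 0 < θ := Real.sqrt_pos.mpr (by positivity)
  have hθ2 : (1 + κ) * θ ^ 2 = η := by
    rw [hθ, Real.sq_sqrt (by positivity)]
    field_simp
  obtain ⟨N, hNsub, hNfin, hNcov⟩ :=
    (isCompact_closedBall (0 : E) R').finite_cover_balls hθ0
  haveI : Fintype N := hNfin.fintype
  -- affine functions
  set w : N → E := fun j => gr p κ (j : E) with hw
  set b : N → ℝ := fun j => r ^ 2 - fn p κ (j : E) + 2 * ⟪w j, (j : E)⟫ with hb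
  have hlow0 : ∀ j : N, ∀ y : E, 2 * ⟪w j, y⟫ - b j + r ^ 2 ≤ fn p κ y := by
    intro j y
    have h1 := fn_lower hp κ (j : E) y
    have h2 : 0 ≤ κ * ‖y - (j : E)‖ ^ 2 := by positivity
    rw [inner_sub_right] at h1
    simp only [hb, hw]
    linarith
  have hlow : ∀ j : N, ∀ (e : Bool) (y : E), 2 * ⟪w j, sg e • y⟫ - b j + r ^ 2 ≤ fn p κ y := by
    intro j e y
    have := hlow0 j (sg e • y)
    rwa [fn_sg hsym hp] at this
  have hupp : ∀ y ∈ closedBall (0 : E) R', ∃ j : N, fn p κ y - η ≤ 2 * ⟪w j, y⟫ - b j + r ^ 2 := by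
    intro y hy
    have := hNcov hy
    simp only [mem_iUnion] at this
    obtain ⟨z, hz, hyz⟩ := this
    refine ⟨⟨z, hz⟩, ?_⟩
    have h1 := fn_upper hp κ z y
    have h2 : ‖y - z‖ ≤ θ := by
      rw [mem_ball, dist_eq_norm] at hyz
      exact hyz.le
    have h3 : ‖y - z‖ ^ 2 ≤ θ ^ 2 := pow_le_pow_left₀ (norm_nonneg _) h2 2
    have h4 : (1 + κ) * ‖y - z‖ ^ 2 ≤ η := by
      rw [← hθ2]
      exact mul_le_mul_of_nonneg_left h3 (by positivity)
    rw [inner_sub_right] at h1
    simp only [hb, hw]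
    linarith
  -- generic offsets
  let Λ : Type _ := {l : (Fin m → N) × (Fin m → Finset ι) × (Fin m → Bool) //
    Function.Injective l.1}
  obtain ⟨t, ht, η', hη'0, hgen⟩ := exists_generic' (J := N) (I := Fin m) (Λ := Λ)
    (fun l => l.1.1) (fun l => l.2)
    (fun l => LinearMap.range (sysMapS l.1.2.1 (fun s => sg (l.1.2.2 s) • w (l.1.1 s))))
    (fun l => range_sysMapS_ne_top (by simpa using hdim) _ _) b hη0
  set ζ : ℝ := min η η' with hζ
  have hζ0 : 0 < ζ := lt_min hη0 hη'0
  have hζη : ζ ≤ η := min_le_left _ _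
  have hζη' : ζ ≤ η' := min_le_right _ _
  -- the polytope
  set S : Set E := {y | y ∈ closedBall (0 : E) R' ∧
    ∀ (j : N) (e : Bool), 2 * ⟪w j, sg e • y⟫ ≤ b j + t j} with hS
  have hSsub : S ⊆ closedBall (0 : E) R' := fun y hy => hy.1
  have hSclosed : IsClosed S := by
    have : S = closedBall (0 : E) R' ∩
        ⋂ j : N, ⋂ e : Bool, {y | 2 * ⟪w j, sg e • y⟫ ≤ b j + t j} := by
      ext y; simp [hS]
    rw [this]
    refine isClosed_closedBall.inter (isClosed_iInter fun j => isClosed_iInter fun e => ?_)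
    exact isClosed_le (by fun_prop) continuous_const
  have hSconv : Convex ℝ S := by
    intro x hx y hy a c ha hc hac
    refine ⟨(convex_closedBall (0 : E) R') hx.1 hy.1 ha hc hac, fun j e => ?_⟩
    have h1 := hx.2 j e
    have h2 := hy.2 j e
    have e0 : sg e • (a • x + c • y) = a • (sg e • x) + c • (sg e • y) := by module
    rw [e0, inner_add_right, inner_smul_right (w j) (sg e • x) a,
      inner_smul_right (w j) (sg e • y) c]
    have h3 : a * (2 * ⟪w j, sg e • x⟫) ≤ a * (b j + t j) := mul_le_mul_of_nonneg_left h1 ha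
    have h4 : c * (2 * ⟪w j, sg e • y⟫) ≤ c * (b j + t j) := mul_le_mul_of_nonneg_left h2 hc
    have h5 : a * (b j + t j) + c * (b j + t j) = b j + t j := by rw [← add_mul, hac, one_mul]
    linarith
  have hSneg : ∀ x ∈ S, -x ∈ S := by
    intro x hx
    refine ⟨?_, fun j e => ?_⟩
    · have := hx.1
      rw [mem_closedBall, dist_zero_right] at this ⊢
      rwa [norm_neg]
    · have := hx.2 j (!e)
      have e0 : sg (!e) • x = sg e • (-x) := by cases e <;> simp [sg]
      rwa [e0] at this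
  have hKS : (K : Set E) ⊆ S := by
    intro x hx
    refine ⟨?_, fun j e => ?_⟩
    · rw [mem_closedBall, dist_zero_right]
      have := hR x hx
      linarith
    · have h1 := hlow j e x
      have h2 : fn p κ x ≤ r ^ 2 / 4 := by
        have h3 : ‖x - p x‖ = 0 := by
          have := (hp x).2.1 x hx
          rw [sub_self, norm_zero] at this
          exact le_antisymm this (norm_nonneg _)
        unfold fn
        rw [h3]
        have h4 : ‖x‖ ^ 2 ≤ R ^ 2 := pow_le_pow_left₀ (norm_nonneg _) (hR x hx) 2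
        nlinarith
      have h5 := (abs_le.mp (ht j)).1
      nlinarith
  have hfS : ∀ y ∈ closedBall (0 : E) R', (∀ j : N, 2 * ⟪w j, y⟫ ≤ b j + t j + η) →
      fn p κ y ≤ r ^ 2 + 3 * η := by
    intro y hy hj
    obtain ⟨j, hj'⟩ := hupp y hy
    have h1 := hj j
    have h2 := (abs_le.mp (ht j)).2
    linarith
  have hone : ∀ y : E, sg true • y = y := fun y => by simp [sg]
  have hdistS : ∀ y ∈ S, ‖y - p y‖ < 2 * r := by
    intro y hy
    have h1 := hfS y hy.1 (fun j => by have := hy.2 j true; rw [hone] at this; linarith)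
    have h2 : ‖y - p y‖ ^ 2 ≤ r ^ 2 + 3 * η := by
      have : 0 ≤ κ * ‖y‖ ^ 2 := by positivity
      unfold fn at h1
      linarith
    have h3 : ‖y - p y‖ ^ 2 < (2 * r) ^ 2 := by nlinarith
    exact lt_of_pow_lt_pow_left₀ 2 (by positivity) h3
  have hnormS : ∀ y ∈ S, ‖y‖ ≤ R + 2 * r := by
    intro y hy
    have h1 := hdistS y hy
    have h2 := hR _ (hp y).1
    calc ‖y‖ = ‖(y - p y) + p y‖ := by congr 1; abel
      _ ≤ ‖y - p y‖ + ‖p y‖ := norm_add_le _ _
      _ ≤ R + 2 * r := by linarith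
  let K' : ConvexBody E := ⟨S, hSconv,
    (isCompact_closedBall (0 : E) R').of_isClosed_subset hSclosed hSsub,
    K.nonempty.mono hKS⟩
  have hK'coe : (K' : Set E) = S := rfl
  refine ⟨K', hSneg, ?_, ?_⟩
  · -- distance estimate
    have h1 : dist K K' ≤ 2 * r := by
      rw [← ConvexBody.hausdorffDist_coe]
      apply hausdorffDist_le_of_mem_dist (by positivity)
      · intro x hx
        exact ⟨x, hKS hx, by rw [dist_self]; positivity⟩
      · intro x hx
        refine ⟨p x, (hp x).1, ?_⟩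
        rw [dist_eq_norm]
        exact (hdistS x hx).le
    have : 2 * r < ε := by rw [hr]; linarith
    linarith
  · -- robustness
    obtain ⟨A, hA0, hA⟩ : ∃ A : ℝ, 0 < A ∧ ∀ j : N, 2 * ‖w j‖ ≤ A := by
      rcases isEmpty_or_nonempty N with hN | hN
      · exact ⟨1, one_pos, fun j => (hN.false j).elim⟩
      · obtain ⟨j₀, hj₀⟩ := Finite.exists_max (fun j : N => 2 * ‖w j‖)
        exact ⟨2 * ‖w j₀‖ + 1, by positivity, fun j => (hj₀ j).trans (by linarith)⟩
    set ρ : ℝ := min (ζ / A) (1 / 2) with hρ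
    have hρ0 : 0 < ρ := lt_min (by positivity) (by norm_num)
    have hρ1 : A * ρ ≤ ζ := by
      have : ρ ≤ ζ / A := min_le_left _ _
      calc A * ρ ≤ A * (ζ / A) := mul_le_mul_of_nonneg_left this hA0.le
        _ = ζ := by field_simp
    have hρ2 : ρ ≤ 1 / 2 := min_le_right _ _
    refine ⟨ρ / 2, by positivity, ?_⟩
    rintro L hL ⟨x, v, hgap, hfr⟩
    have hlip : ∀ j : N, ∀ (e : Bool) (y z : E),
        2 * ⟪w j, sg e • y⟫ ≤ 2 * ⟪w j, sg e • z⟫ + A * ‖y - z‖ := by
      intro j e y z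
      have h1 : ⟪w j, sg e • y - sg e • z⟫ ≤ ‖w j‖ * ‖sg e • y - sg e • z‖ :=
        real_inner_le_norm _ _
      rw [inner_sub_right, ← smul_sub, norm_sg] at h1
      have h2 : 2 * ‖w j‖ * ‖y - z‖ ≤ A * ‖y - z‖ :=
        mul_le_mul_of_nonneg_right (hA j) (norm_nonneg _)
      linarith
    have hnear : ∀ y ∈ frontier (L : Set E), ∃ z ∈ S, ‖y - z‖ < ρ / 2 := by
      intro y hy
      have hyL : y ∈ (L : Set E) := L.isClosed.frontier_subset hy
      have hL' : hausdorffDist (L : Set E) (K' : Set E) < ρ / 2 := by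
        rw [ConvexBody.hausdorffDist_coe, dist_comm]; exact hL
      obtain ⟨z, hz, hyz⟩ := exists_dist_lt_of_hausdorffDist_lt hyL hL'
        ConvexBody.hausdorffEDist_ne_top
      exact ⟨z, hz, by rwa [← dist_eq_norm]⟩
    have hball : ∀ y ∈ frontier (L : Set E), y ∈ closedBall (0 : E) R' ∧
        (∀ (j : N) (e : Bool), 2 * ⟪w j, sg e • y⟫ ≤ b j + t j + ζ) := by
      intro y hy
      obtain ⟨z, hz, hyz⟩ := hnear y hy
      refine ⟨?_, fun j e => ?_⟩
      · rw [mem_closedBall, dist_zero_right]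
        have h1 := hnormS z hz
        have h2 : ‖y‖ ≤ ‖y - z‖ + ‖z‖ := by
          calc ‖y‖ = ‖(y - z) + z‖ := by congr 1; abel
            _ ≤ _ := norm_add_le _ _
        rw [hR']
        linarith
      · have h1 := hlip j e y z
        have h2 := hz.2 j e
        have h3 : A * ‖y - z‖ ≤ A * ρ := mul_le_mul_of_nonneg_left (by linarith) hA0.le
        linarith
    have hfacet : ∀ y ∈ frontier (L : Set E), ∃ je : N × Bool,
        b je.1 + t je.1 - ζ ≤ 2 * ⟪w je.1, sg je.2 • y⟫ := by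
      intro y hy
      by_contra hcon
      push Not at hcon
      obtain ⟨z₀, hz₀, hyz₀⟩ := hnear y hy
      have hint : y ∈ interior (L : Set E) := by
        refine mem_interior_of_approx L (ρ := ρ) (δ := ρ / 2) (by positivity) (by linarith) ?_
        intro q hq
        have hqS : q ∈ S := by
          refine ⟨?_, fun j e => ?_⟩
          · rw [mem_closedBall, dist_zero_right]
            have h1 := hnormS z₀ hz₀
            have h2 : ‖q‖ ≤ ‖q - y‖ + ‖y - z₀‖ + ‖z₀‖ := by
              calc ‖q‖ = ‖(q - y) + (y - z₀) + z₀‖ := by congr 1; abel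
                _ ≤ _ := norm_add₃_le
            rw [hR']
            linarith
          · have h1 := hlip j e q y
            have h2 := hcon (j, e)
            have h3 : A * ‖q - y‖ ≤ A * ρ := mul_le_mul_of_nonneg_left hq.le hA0.le
            simp only at h2
            linarith
        obtain ⟨z, hz, hqz⟩ := exists_dist_lt_of_hausdorffDist_lt (s := (K' : Set E))
          (t := (L : Set E)) hqS hL ConvexBody.hausdorffEDist_ne_top
        exact ⟨z, hz, by rwa [← dist_eq_norm]⟩
      exact hy.2 hint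
    choose σe hσe using fun s => hfacet _ (hfr s)
    have hinj : ∀ s s' : Finset ι, (σe s).1 = (σe s').1 → (σe s).2 = (σe s').2 → s = s' := by
      intro s s' hss hee
      by_contra hne
      have hg' := hgap s s' hne
      set y := x + ∑ i ∈ s, v i with hy
      set y' := x + ∑ i ∈ s', v i with hy'
      have h1 := hball _ (hfr s)
      have h2 := hball _ (hfr s')
      have h3 := hfS y h1.1 (fun j => by
        have := h1.2 j true
        rw [hone] at this
        exact this.trans (by linarith))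
      have h4 := hfS y' h2.1 (fun j => by
        have := h2.2 j true
        rw [hone] at this
        exact this.trans (by linarith))
      have h5 := hσe s
      have h6 := hσe s'
      rw [← hss, ← hee] at h6
      have h7 := hlow (σe s).1 (σe s).2 ((1 / 2 : ℝ) • (y + y'))
      have e0 : sg (σe s).2 • ((1 / 2 : ℝ) • (y + y'))
          = (1 / 2 : ℝ) • (sg (σe s).2 • y + sg (σe s).2 • y') := by module
      rw [e0, inner_smul_right, inner_add_right] at h7
      have h8 := (abs_le.mp (ht (σe s).1)).1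
      have h9 := fn_midpoint hp κ y y'
      have h10 : g ^ 2 ≤ ‖y - y'‖ ^ 2 := pow_le_pow_left₀ hg.le hg' 2
      have h11 : κ * g ^ 2 ≤ κ * ‖y - y'‖ ^ 2 := mul_le_mul_of_nonneg_left h10 hκ0.le
      have h12 : 0 < κ * g ^ 2 := by positivity
      linarith
    obtain ⟨τ, hτ⟩ := exists_section (fun s => (σe s).1) (fun s => (σe s).2) hinj (m := m)
      (by rw [Fintype.card_finset]; exact hm)
    obtain ⟨i, hi⟩ := hgen ⟨(fun i => (σe (τ i)).1, τ, fun i => (σe (τ i)).2), hτ⟩ _ ⟨(x, v), rfl⟩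
    have h1 := (hball _ (hfr (τ i))).2 (σe (τ i)).1 (σe (τ i)).2
    have h2 := hσe (τ i)
    have h3 : |2 * ⟪w (σe (τ i)).1, sg (σe (τ i)).2 • (x + ∑ l ∈ τ i, v l)⟫
        - (b (σe (τ i)).1 + t (σe (τ i)).1)| ≤ ζ := by
      rw [abs_le]
      constructor <;> linarith
    have h4 : η' < |2 * ⟪sg (σe (τ i)).2 • w (σe (τ i)).1, x + ∑ l ∈ τ i, v l⟫
        - (b (σe (τ i)).1 + t (σe (τ i)).1)| := hi
    rw [inner_smul_right] at h3
    rw [real_inner_smul_left] at h4
    linarith

end Pool.Agent.Y368.PT
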