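import Mathlib
import Pool.Agent.Y368.PT.Sym
import Pool.Agent.Helper892.Dim4
import Pool.Agent.Helper892.Dim5

set_option autoImplicit false

/-! Typical convex bodies, and typical centrally symmetric convex bodies, have no inscribed
parallelotope of large dimension. -/

open Metric Set Filter

namespace Pool.Agent.Y368.PT

abbrev E (d : ℕ) : Type := EuclideanSpace ℝ (Fin d)

/-- All `2 ^ k` vertices `a + ∑ i ∈ S, v i` of some nondegenerate `k`-dimensional parallelotope lie
in the boundary of `C ⊆ ℝ ^ d`. -/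
def Inscribed (d k : ℕ) (C : Set (E d)) : Prop :=
  ∃ (a : E d) (v : Fin k → E d), LinearIndependent ℝ v ∧
    ∀ S : Finset (Fin k), a + ∑ i ∈ S, v i ∈ frontier C

/-- `C` is a `d`-dimensional convex body. -/
def IsBody {d : ℕ} (C : Set (E d)) : Prop :=
  IsCompact C ∧ Convex ℝ C ∧ (interior C).Nonempty

/-- `C` is centrally symmetric about the origin. -/
def IsSymm {d : ℕ} (C : Set (E d)) : Prop := ∀ x ∈ C, -x ∈ C

/-- `C` has nonempty interior and no nondegenerate `k`-dimensional parallelotope is inscribed in its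
boundary as soon as `c d (k + 1) < 2 ^ k`, nor for `k = d` if `d₀ ≤ d`. -/
def Thin (c d₀ : ℕ) {d : ℕ} (C : Set (E d)) : Prop :=
  (interior C).Nonempty ∧ (d₀ ≤ d → ¬ Inscribed d d C) ∧
    ∀ k : ℕ, c * (d * (k + 1)) < 2 ^ k → ¬ Inscribed d k C

/-- The convex bodies of `ℝ ^ d` which are centrally symmetric (about the origin), with the
Hausdorff metric. -/
abbrev SymBody (d : ℕ) : Type := {K : ConvexBody (E d) // ∀ x ∈ K, -x ∈ K}

section gen

variable {F : Type*} [NormedAddCommGroup F] [InnerProductSpace ℝ F] [FiniteDimensional ℝ F]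

lemma residual_of_approx {X : Type*} [MetricSpace X] (c : X → ConvexBody F)
    (hc : ∀ x y, dist (c x) (c y) = dist x y) (P : ConvexBody F → Prop)
    (happ : ∀ K : X, ∀ ε > 0, ∃ K' : X, dist K K' < ε ∧ ∃ δ > 0, ∀ L : ConvexBody F,
      dist (c K') L < δ → P L) : ∀ᶠ K in residual X, P (c K) := by
  set G := {K : X | P (c K)} with hG
  have hdense : Dense (interior G) := by
    rw [Metric.dense_iff]
    intro K ε hε
    obtain ⟨K', hK', δ, hδ, hrob⟩ := happ K ε hε
    refine ⟨K', ?_, ?_⟩
    · rw [mem_ball, dist_comm]; exact hK'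
    · rw [mem_interior]
      refine ⟨ball K' δ, ?_, isOpen_ball, mem_ball_self hδ⟩
      intro L hL
      rw [mem_ball, dist_comm, ← hc] at hL
      exact hrob (c L) hL
  exact Filter.mem_of_superset (residual_of_dense_open isOpen_interior hdense) interior_subset

/-- thickening -/
noncomputable def thick (K : ConvexBody F) (ε : ℝ) (_ : 0 ≤ ε) : ConvexBody F :=
  ⟨cthickening ε (K : Set F), K.convex.cthickening ε, K.isCompact.cthickening,
    K.nonempty.mono (self_subset_cthickening _)⟩

lemma mem_thick (K : ConvexBody F) {ε : ℝ} (hε : 0 ≤ ε) (x : F) :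
    x ∈ thick K ε hε ↔ ∃ y ∈ K, ‖x - y‖ ≤ ε := by
  show x ∈ cthickening ε (K : Set F) ↔ _
  rw [K.isCompact.cthickening_eq_biUnion_closedBall hε]
  simp only [mem_iUnion, mem_closedBall, dist_eq_norm, exists_prop]
  rfl

lemma thick_neg {K : ConvexBody F} (hK : ∀ x ∈ K, -x ∈ K) {ε : ℝ} (hε : 0 ≤ ε) :
    ∀ x ∈ thick K ε hε, -x ∈ thick K ε hε := by
  intro x hx
  rw [mem_thick] at hx ⊢
  obtain ⟨y, hy, hxy⟩ := hx
  refine ⟨-y, hK y hy, ?_⟩
  have e : -x - -y = -(x - y) := by abel
  rw [e, norm_neg]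
  exact hxy

lemma dist_thick (K : ConvexBody F) {ε : ℝ} (hε : 0 ≤ ε) : dist K (thick K ε hε) ≤ ε := by
  rw [← ConvexBody.hausdorffDist_coe]
  apply hausdorffDist_le_of_mem_dist hε
  · intro x hx
    exact ⟨x, self_subset_cthickening (K : Set F) hx, by rw [dist_self]; exact hε⟩
  · intro x hx
    obtain ⟨y, hy, hxy⟩ := (mem_thick K hε x).mp hx
    exact ⟨y, hy, by rwa [dist_eq_norm]⟩

lemma thick_interior (K : ConvexBody F) {ε : ℝ} (hε : 0 < ε) (L : ConvexBody F)
    (hL : dist (thick K ε hε.le) L < ε / 2) : (interior (L : Set F)).Nonempty := by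
  obtain ⟨y, hy⟩ := K.nonempty
  refine ⟨y, Pool.Agent.Helper892.Par.mem_interior_of_approx L (ρ := ε) (δ := ε / 2)
    (by positivity) (by linarith) ?_⟩
  intro w hw
  have hwB : w ∈ thick K ε hε.le := (mem_thick K hε.le w).mpr ⟨y, hy, hw.le⟩
  rw [← ConvexBody.hausdorffDist_coe] at hL
  obtain ⟨z, hz, hzd⟩ := exists_dist_lt_of_hausdorffDist_lt hwB hL
    ConvexBody.hausdorffEDist_ne_top
  exact ⟨z, hz, by rwa [dist_eq_norm] at hzd⟩

end gen

lemma not_inscribed_of_gap {d k : ℕ} {C : Set (E d)}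
    (h : ∀ n : ℕ, ¬ ∃ (x : E d) (v : Fin k → E d),
        (∀ s t : Finset (Fin k), s ≠ t →
          1 / ((n : ℝ) + 1) ≤ ‖(x + ∑ i ∈ s, v i) - (x + ∑ i ∈ t, v i)‖) ∧
        ∀ s : Finset (Fin k), x + ∑ i ∈ s, v i ∈ frontier C) : ¬ Inscribed d k C := by
  rintro ⟨x, v, hv, hfr⟩
  obtain ⟨n, hn⟩ := Pool.Agent.Helper892.Dim5.gap x v hv
  exact h n ⟨x, v, hn, hfr⟩

/-- Typical convex bodies. -/
theorem typical (d : ℕ) : ∀ᶠ K : ConvexBody (E d) in residual (ConvexBody (E d)),
    (interior (K : Set (E d))).Nonempty ∧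
      ∀ k : ℕ, d * (k + 1) < 2 ^ k → ¬ Inscribed d k (K : Set (E d)) := by
  refine Filter.Eventually.and ?_ ?_
  · refine residual_of_approx (F := E d) id (fun _ _ => rfl)
      (fun K => (interior (K : Set (E d))).Nonempty) ?_
    intro K ε hε
    refine ⟨thick K (ε / 2) (by positivity), ?_, ε / 2 / 2, by positivity, ?_⟩
    · have := dist_thick K (ε := ε / 2) (by positivity)
      linarith
    · intro L hL
      exact thick_interior K (by positivity) L hL
  · rw [eventually_countable_forall]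
    intro k
    by_cases hk : d * (k + 1) < 2 ^ k
    · have h1 : ∀ᶠ K : ConvexBody (E d) in residual (ConvexBody (E d)), ∀ n : ℕ,
          ¬ ∃ (x : E d) (v : Fin k → E d),
        (∀ s t : Finset (Fin k), s ≠ t →
          1 / ((n : ℝ) + 1) ≤ ‖(x + ∑ i ∈ s, v i) - (x + ∑ i ∈ t, v i)‖) ∧
        ∀ s : Finset (Fin k), x + ∑ i ∈ s, v i ∈ frontier (K : Set (E d)) := by
        rw [eventually_countable_forall]
        intro n
        refine residual_of_approx (F := E d) id (fun _ _ => rfl) (fun K =>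
          ¬ ∃ (x : E d) (v : Fin k → E d),
        (∀ s t : Finset (Fin k), s ≠ t →
          1 / ((n : ℝ) + 1) ≤ ‖(x + ∑ i ∈ s, v i) - (x + ∑ i ∈ t, v i)‖) ∧
        ∀ s : Finset (Fin k), x + ∑ i ∈ s, v i ∈ frontier (K : Set (E d))) ?_
        intro K ε hε
        exact Pool.Agent.Helper892.Par.approx (ι := Fin k) (by
          rw [finrank_euclideanSpace, Fintype.card_fin, Fintype.card_fin]
          exact hk) K hε (by positivity)
      filter_upwards [h1] with K hK _
      exact not_inscribed_of_gap hK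
    · exact Filter.Eventually.of_forall fun K h => absurd h hk

/-- Typical centrally symmetric convex bodies. -/
theorem typicalS (d : ℕ) (hd : 0 < d) : ∀ᶠ K : SymBody d in residual (SymBody d),
    (interior (K.1 : Set (E d))).Nonempty ∧
      ∀ k : ℕ, 2 * (d * (k + 1)) < 2 ^ k → ¬ Inscribed d k (K.1 : Set (E d)) := by
  refine Filter.Eventually.and ?_ ?_
  · refine residual_of_approx (F := E d) (X := SymBody d) (fun K => K.1) (fun _ _ => rfl)
      (fun K => (interior (K : Set (E d))).Nonempty) ?_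
    intro K ε hε
    refine ⟨⟨thick K.1 (ε / 2) (by positivity), thick_neg K.2 _⟩, ?_, ε / 2 / 2,
      by positivity, ?_⟩
    · have := dist_thick K.1 (ε := ε / 2) (by positivity)
      have h2 : dist K ⟨thick K.1 (ε / 2) (by positivity), thick_neg K.2 _⟩
        = dist K.1 (thick K.1 (ε / 2) (by positivity)) := rfl
      rw [h2]
      linarith
    · intro L hL
      exact thick_interior K.1 (by positivity) L hL
  · rw [eventually_countable_forall]
    intro k
    by_cases hk : 2 * (d * (k + 1)) < 2 ^ k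
    · have h1 : ∀ᶠ K : SymBody d in residual (SymBody d), ∀ n : ℕ,
          ¬ ∃ (x : E d) (v : Fin k → E d),
        (∀ s t : Finset (Fin k), s ≠ t →
          1 / ((n : ℝ) + 1) ≤ ‖(x + ∑ i ∈ s, v i) - (x + ∑ i ∈ t, v i)‖) ∧
        ∀ s : Finset (Fin k), x + ∑ i ∈ s, v i ∈ frontier (K.1 : Set (E d)) := by
        rw [eventually_countable_forall]
        intro n
        refine residual_of_approx (F := E d) (X := SymBody d) (fun K => K.1) (fun _ _ => rfl)
          (fun K => ¬ ∃ (x : E d) (v : Fin k → E d),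
        (∀ s t : Finset (Fin k), s ≠ t →
          1 / ((n : ℝ) + 1) ≤ ‖(x + ∑ i ∈ s, v i) - (x + ∑ i ∈ t, v i)‖) ∧
        ∀ s : Finset (Fin k), x + ∑ i ∈ s, v i ∈ frontier (K : Set (E d))) ?_
        intro K ε hε
        have hk0 : k ≠ 0 := by
          rintro rfl
          simp at hk
          omega
        obtain ⟨k', rfl⟩ := Nat.exists_eq_succ_of_ne_zero hk0
        have hpow : 2 ^ (k' + 1) = 2 * 2 ^ k' := by rw [pow_succ]; ring
        obtain ⟨K', hK's, hK', δ, hδ, hrob⟩ := approxS (ι := Fin (k' + 1)) (m := 2 ^ k') (by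
          rw [finrank_euclideanSpace, Fintype.card_fin, Fintype.card_fin]
          have : k'.succ = k' + 1 := rfl
          rw [this] at hk
          omega) (by rw [Fintype.card_fin, hpow]) K.1 K.2 hε
          (show (0 : ℝ) < 1 / ((n : ℝ) + 1) by positivity)
        exact ⟨⟨K', hK's⟩, hK', δ, hδ, hrob⟩
      filter_upwards [h1] with K hK _
      exact not_inscribed_of_gap hK
    · exact Filter.Eventually.of_forall fun K h => absurd h hk

lemma isClosed_sym (d : ℕ) : IsClosed {K : ConvexBody (E d) | ∀ x ∈ K, -x ∈ K} := by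
  rw [← isSeqClosed_iff_isClosed]
  intro u K hu hlim x hx
  have hclosed : IsClosed (K : Set (E d)) := K.isCompact.isClosed
  show -x ∈ (K : Set (E d))
  rw [← hclosed.closure_eq, Metric.mem_closure_iff]
  intro ε hε
  obtain ⟨n, hn⟩ := (Metric.tendsto_atTop.mp hlim) (ε / 2) (by positivity)
  have h2 := hn n le_rfl
  rw [dist_comm, ← ConvexBody.hausdorffDist_coe] at h2
  obtain ⟨x', hx', hxx⟩ := exists_dist_lt_of_hausdorffDist_lt hx h2
    ConvexBody.hausdorffEDist_ne_top
  obtain ⟨z, hz, hzz⟩ := exists_dist_lt_of_hausdorffDist_lt' (hu n x' hx') h2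
    ConvexBody.hausdorffEDist_ne_top
  refine ⟨z, hz, ?_⟩
  calc dist (-x) z ≤ dist (-x) (-x') + dist (-x') z := dist_triangle _ _ _
    _ < ε / 2 + ε / 2 := by
        rw [dist_neg_neg]
        exact add_lt_add hxx (by rw [dist_comm]; exact hzz)
    _ = ε := by ring

instance instCompleteSym (d : ℕ) : CompleteSpace (SymBody d) :=
  (isClosed_sym d).completeSpace_coe

lemma pow_bound {d : ℕ} (hd : 7 ≤ d) : 2 * (d * (d + 1)) < 2 ^ d := by
  induction d, hd using Nat.le_induction with
  | base => norm_num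
  | succ n hn ih =>
    rw [pow_succ]
    nlinarith

lemma pow_bound5 {d : ℕ} (hd : 5 ≤ d) : d * (d + 1) < 2 ^ d := by
  induction d, hd using Nat.le_induction with
  | base => norm_num
  | succ n hn ih =>
    rw [pow_succ]
    nlinarith

/-- Centrally symmetric bodies without inscribed parallelotope near every symmetric body. -/
theorem exists_sym {d : ℕ} (hd : 7 ≤ d) :
    ∃ C : Set (E d), IsCompact C ∧ Convex ℝ C ∧ (interior C).Nonempty ∧ (∀ x ∈ C, -x ∈ C) ∧
      ¬ Inscribed d d C := by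
  have hres := typicalS d (by omega)
  have hne : Nonempty (SymBody d) :=
    ⟨⟨⟨{0}, convex_singleton 0, isCompact_singleton, singleton_nonempty 0⟩, by
      intro x hx
      have hx' : x = 0 := hx
      rw [hx', neg_zero]
      rfl⟩⟩
  obtain ⟨K, hK⟩ := (dense_of_mem_residual hres).nonempty
  exact ⟨K.1, K.1.isCompact, K.1.convex, hK.1, K.2, hK.2 d (pow_bound hd)⟩

end Pool.Agent.Y368.PT
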